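import Pool.Agent.H60.AP.Sml
import Pool.Agent.H32.NY.Fr
import Pool.Agent.H24.AB.H1f
import Pool.Agent.H24.AB.H1g
import Pool.Agent.H20.AB.FrA
import Pool.Agent.H20.AB.Bc2
import Pool.Agent.H20.AB.As
import Pool.Agent.H43.AS.AsX
import Pool.Agent.H61.AB.H4f

/-!
# [H60 AP Asy] abundance: the assembly (MP_e49dc9_ag)

`asm_core`: the data on `X`, `Y` give a `TD` on the base change of `Y`; contradiction.
-/

set_option autoImplicit false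

namespace Pool.Agent.H60.AP

open Pool.Agent.H54.RV Pool.Agent.H83.TU Pool.Agent.H83.TK Pool.Agent.H24.TK Pool.Agent.H41.TK Pool.Agent.H24.AB
  Pool.Agent.H83.AY Pool.Agent.H47.YP Pool.Agent.H4.YB Pool.Agent.H43.WR
open Pool.Agent.H24.VP (RR)
open Pool.Agent.H20.AB (opt fr_sys exists_bc2 nef_pow)

variable {k K : Type} [Field k] [Field K] [Algebra k K] {X : Mod k K}
  {T : Cart X → Cart X → Cart X → ℝ} {l : Cart X → ℝ} {c : ℝ}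

theorem asm_core [CharZero k] [T0Space X.P] (h : Hyp X) (hr : RR T l c) (hfg : (⊤ : IntermediateField k K).FG)
    {J : K → K → K → K} {κ : Cart X} (hJ : Jac X J κ) {t₀ : ℕ} (ht₀ : 0 < t₀) {θ : K} (hθ0 : θ ≠ 0)
    (hθ : ∀ x, Un (X.O x) (θ * κ.eq x ^ t₀))
    (hκ : ∀ B : Cart X, Ample B → Ample (B * κ)) (hκ' : ∀ B : Cart X, Ample B → Ample (B * κ⁻¹))
    (hTκ : ∀ U V, T κ U V = 0)
    {P : Cart X} (hP : ∀ B : Cart X, Ample B → Ample (B * P)) (h3 : T P P P = 0)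
    (hPP : ∀ A : Cart X, Ample A → 0 < T P P A) (hl : 0 < l P)
    (hng : ¬ ∃ c₀ : ℝ, 0 < c₀ ∧ ∃ n₀ : ℕ, ∀ n : ℕ, n₀ ≤ n → c₀ * (n : ℝ) ^ 2 ≤ h0 (P ^ n) 1)
    {F : Type} [Field F] [Algebra k F] [Algebra F K] [IsScalarTower k F K] {Y : Mod F K} [T0Space Y.P]
    {π : Y.P → X.P} {ψ : Cart X →* Cart Y}
    (hY : IsVar Y) (hgY : ∃ g, Gen Y g) (hN : Nml Y) (hct : Ctr X Y π) (hψ : ∀ D y, (ψ D).eq y = D.eq (π y))
    (hπ : ∀ g, Gen Y g → Gen X (π g)) (htr : Algebra.trdeg F K = 2)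
    (hψa : ∀ D, Ample D → Ample (ψ D)) (hfr : ∀ (H : Cart X) (r : ℕ) (t : Fin r → K), Fr H r t → Fr (ψ H) r t)
    (hF : ∀ x : F, ∃ (m : ℕ) (a b : K), Sec (P ^ m) 1 a ∧ Sec (P ^ m) 1 b ∧ b ≠ 0 ∧ algebraMap F K x * b = a)
    (hF' : ∀ (m : ℕ) (a b : K), Sec (P ^ m) 1 a → Sec (P ^ m) 1 b → b ≠ 0 → ∃ x : F, algebraMap F K x * b = a)
    {ζ : F} (hζ : Transcendental k ζ) (hFa : ∀ c : F, IsAlgebraic (Algebra.adjoin k {ζ}) c)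
    (has : ∀ (W A : Cart X) {k' K' : Type} [Field k'] [Field K'] [Algebra k' K'] [CharZero k'] {C : Mod k' K'}
      {φ : Cart Y →* Cart C}, (∃ n, 1 ≤ n ∧ W = P ^ n) → Ample A → Cut Y (ψ A) C φ →
      0 < dg (φ (ψ W)) ∧ ∃ M : ℕ, 1 ≤ M ∧ ∀ j : ℕ, ∃ m₀ : ℕ, ∀ m ≥ m₀,
        (h0 (ψ κ⁻¹ * (ψ A) ^ m) 1 : ℝ) + j * M * m * dg (φ (ψ W)) ≤ h0 (ψ κ⁻¹ * ((ψ W) ^ (j * M) * (ψ A) ^ m)) 1) :
    False := by
  classical
  have hX := h.var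
  have hgX := h.gen
  have hcF : CharZero F := charZero_of_injective_algebraMap (algebraMap k F).injective
  obtain ⟨A₀, hA₀⟩ := h.amp
  obtain ⟨m₁, hm₁, r, t, hfr₁⟩ := exists_fr hX A₀ hA₀
  obtain ⟨H₀, hH₀⟩ : ∃ H₀, H₀ = A₀ ^ m₁ := ⟨_, rfl⟩
  rw [← hH₀] at hfr₁
  obtain ⟨j₀, hj₀⟩ := hfr₁.exists_ne hX
  obtain ⟨r', rfl⟩ : ∃ r', r = r' + 1 := ⟨r - 1, by have := j₀.2; omega⟩
  have htrX : Algebra.trdeg k K ≠ 0 := by rw [h.tr]; norm_num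
  have htrY : Algebra.trdeg F K ≠ 0 := by rw [htr]; norm_num
  have hAY : ∃ A : Cart Y, Ample A := ⟨_, hψa _ hA₀⟩
  have hAH₀ : Ample (ψ H₀) := (hfr _ _ _ hfr₁).ample
  -- torsion on `Y`
  obtain ⟨E, hE⟩ : ∃ E : Cart Y, E = ψ κ⁻¹ := ⟨_, rfl⟩
  have hEθ : ∀ y, Un (Y.O y) (θ⁻¹ * E.eq y ^ t₀) := by
    intro y
    have h1 := un_inv (hθ (π y))
    have h2 : (θ * κ.eq (π y) ^ t₀)⁻¹ = θ⁻¹ * E.eq y ^ t₀ := by
      rw [hE, hψ]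
      show _ = θ⁻¹ * ((κ.eq (π y))⁻¹) ^ t₀
      rw [mul_inv, inv_pow]
    rw [h2] at h1
    exact ⟨h1.1, hct.le _ _ h1.2.1, hct.le _ _ h1.2.2⟩
  have hD : ∀ V : Cart Y, h0 (V * E ^ t₀) 1 = h0 V 1 := tor_h0 (inv_ne_zero hθ0) hEθ
  -- the multiple of `H₀`
  obtain ⟨M₀, hM₀⟩ : ∃ M₀ : ℕ, ∀ M ≥ M₀,
      ∀ {k' K' : Type} [Field k'] [Field K'] [Algebra k' K'] [CharZero k'] {C : Mod k' K'} {φ : Cart Y →* Cart C},
        Cut Y ((ψ H₀) ^ M) C φ → ∀ n ≥ 2,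
          h0 (E * (ψ H₀) ^ (M * n)) 1 = h0 (E * (ψ H₀) ^ (M * n) * ((ψ H₀) ^ M)⁻¹) 1 +
            h0 (φ (E * (ψ H₀) ^ (M * n))) 1 := by
    obtain ⟨hs, -⟩ := fr_sys hY hgY (hfr _ _ _ hfr₁) htrY
    obtain ⟨F₁, K₁, _, _, _, _, _, _, _, _, l₁, hb⟩ := exists_bc F K (Option (Fin r'))
    obtain ⟨g, hg⟩ := hgY
    obtain ⟨z, hsl, hz, hq, hS, htz, -⟩ := gs_full hY hg hb hs
    have := charZero_of_injective_algebraMap (algebraMap F F₁).injective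
    exact y1_tw hAH₀ ht₀ hD (gen_cut hY ⟨g, hg⟩ htr hAY hb hsl hS htz)
  obtain ⟨M, hM⟩ : ∃ M, M = M₀ + 1 := ⟨_, rfl⟩
  obtain ⟨H, hH⟩ : ∃ H, H = H₀ ^ M := ⟨_, rfl⟩
  obtain ⟨tt, htt⟩ : ∃ tt, tt = fun j => t j ^ M := ⟨_, rfl⟩
  have hfrH : Fr H (r' + 1) tt := by
    rw [hH, htt]
    exact hfr₁.pow M (by omega)
  have hHa : Ample H := hfrH.ample
  obtain ⟨hsX, hfree, ⟨jj, hjj⟩, halg⟩ := fr_sys hX hgX hfrH htrX
  obtain ⟨hsY, -⟩ := fr_sys hY hgY (hfr _ _ _ hfrH) htrY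
  obtain ⟨s, hs⟩ : ∃ s, s = dupS (opt tt) := ⟨_, rfl⟩
  rw [← hs] at hsX hfree hjj halg hsY
  -- sections
  obtain ⟨m₂, hm₂⟩ := ex_sec h hr hHa hP h3 (hPP _ hHa) hl (Q := 1) (fun B hB => by rwa [mul_one]) (fun U V => hr.tri.one U V)
  obtain ⟨m₃, hm₃⟩ := ex_sec h hr hHa hP h3 (hPP _ hHa) hl (Q := κ) hκ hTκ
  obtain ⟨m₄, hm₄⟩ : ∃ m₄, m₄ = m₂ + m₃ + 1 := ⟨_, rfl⟩
  obtain ⟨b₀, hb0, hb⟩ := hm₂ m₄ (by omega)
  obtain ⟨ψ₀, hψ0, hψ₀⟩ := hm₃ m₄ (by omega)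
  rw [mul_one] at hb
  -- the base change
  obtain ⟨k', F', K', _, _, _, _, _, _, _, _, _, _, _, _, _, _, _, _, _, _, _, l', hbX, hbY⟩ :=
    exists_bc2 k F K (Option (Fin r'))
  obtain ⟨gY, hgY'⟩ := hgY
  have hgX' : Gen X (π gY) := hπ gY hgY'
  obtain ⟨z, hslX, hz, hq, -⟩ := gs_full hX hgX' hbX hsX
  obtain ⟨z', hsl, hz', hq', hS, htz, hNz, -⟩ := gs_full hY hgY' hbY hsY
  have hcF' : CharZero F' := charZero_of_injective_algebraMap (algebraMap F F').injective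
  have hX' := isVar_bc hY ⟨gY, hgY'⟩ hbY
  obtain ⟨γ, hγ⟩ : ∃ γ, γ = gsec K' l' s := ⟨_, rfl⟩
  have hγ' : gsec K' (fun i => algebraMap k' F' (l' i)) s = γ := by
    rw [hγ]
    unfold gsec
    congr 1
    refine Finset.sum_congr rfl fun i _ => ?_
    rw [← IsScalarTower.algebraMap_apply k' F' K']
  have hγ0 : γ ≠ 0 := by rwa [← hγ']
  have hprin : ∀ (a : K') (ha : a ≠ 0), a = γ → prin (bcM Y hbY) a ha = prin (bcM Y hbY) γ hγ0 := by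
    intro a ha h
    subst h
    rfl
  have hcut := gen_cut hY ⟨gY, hgY'⟩ htr hAY hbY hsl hS htz
  rw [hprin _ hsl hγ'] at hS
  obtain ⟨φ, hφ⟩ : ∃ φ : Cart Y →* Cart (subM hX' z'), φ = (resD hX' z').comp (bcD hY ⟨gY, hgY'⟩ hbY) := ⟨_, rfl⟩
  have hcut' : Cut Y (ψ H) (subM hX' z') φ := by
    rw [hφ]
    exact hcut
  have hCrv : Crv (subM hX' z') := hcut'.crv
  -- `(AS)`
  obtain ⟨hpos, N, hN1, hasN⟩ := has (P ^ m₄) H ⟨m₄, by omega, rfl⟩ hHa hcut'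
  obtain ⟨R, hR⟩ : ∃ R, R = m₄ * N := ⟨_, rfl⟩
  have hR1 : 1 ≤ R := by
    rw [hR]
    exact Nat.mul_pos (by omega) hN1
  have hPR : P ^ R = (P ^ m₄) ^ N := by rw [hR, pow_mul]
  obtain ⟨τ, hτd⟩ : ∃ τ, τ = b₀ ^ N := ⟨_, rfl⟩
  have hτ0 : τ ≠ 0 := by
    rw [hτd]
    exact pow_ne_zero _ hb0
  have hτ : Sec (P ^ R) 1 τ := by
    intro x
    have h4 := pow_mem (hb x) N
    rw [pow_one] at h4 ⊢
    rw [hPR, hτd, pow_eq (P ^ m₄), ← mul_pow]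
    exact h4
  have hW1 : ∀ y, (ψ (P ^ R) * prin Y τ hτ0).eq y ∈ Y.O y := by
    intro y
    have h4 := hct.le _ _ (hτ (π y))
    rw [pow_one] at h4
    rw [mul_eq, hψ]
    show (P ^ R).eq (π y) * τ ∈ Y.O y
    rwa [mul_comm]
  have hW := eff_bc hY ⟨gY, hgY'⟩ hbY hW1
  have hwz : Un ((bcM Y hbY).O z') ((bcD hY ⟨gY, hgY'⟩ hbY (ψ (P ^ R) * prin Y τ hτ0)).eq z') :=
    wz_bc hgY' hbY z' hz' (Cart.ne _ _)
  have htor := tor_bc hY ⟨gY, hgY'⟩ hbY hEθ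
  have hdR : dg (φ (ψ (P ^ R))) = N * dg (φ (ψ (P ^ m₄))) := by
    rw [hPR, map_pow, map_pow, dg_pow hCrv]
  have hdR0 : 0 < dg (φ (ψ (P ^ R))) := by
    rw [hdR]
    exact mul_pos (by exact_mod_cast hN1) hpos
  obtain ⟨d, hd⟩ : ∃ d : ℕ, (d : ℤ) = dg (φ (ψ (P ^ R))) := ⟨_, Int.toNat_of_nonneg hdR0.le⟩
  have hφp : ∀ (A : Cart Y), φ (A * prin Y τ hτ0) = φ A := by
    intro A
    rw [hφ]
    exact resD_prin' hY ⟨gY, hgY'⟩ hbY z' A τ hτ0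
  have hφg : ∀ (A : Cart Y), resD hX' z' (bcD hY ⟨gY, hgY'⟩ hbY A * prin (bcM Y hbY) γ hγ0) = φ A := by
    intro A
    rw [hφ]
    exact resD_gen hY ⟨gY, hgY'⟩ hbY z' A γ hγ0
  have hφb : ∀ (A : Cart Y), resD hX' z' (bcD hY ⟨gY, hgY'⟩ hbY A) = φ A := by
    intro A
    rw [hφ]
    rfl
  have TD' : TD (bcM Y hbY) hX' z' (bcD hY ⟨gY, hgY'⟩ hbY (ψ H) * prin (bcM Y hbY) γ hγ0)
      (bcD hY ⟨gY, hgY'⟩ hbY (ψ (P ^ R) * prin Y τ hτ0)) (bcD hY ⟨gY, hgY'⟩ hbY E) t₀ (algebraMap K K' θ⁻¹) d := by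
    refine
      { gen := bc_ex_gen hY ⟨gY, hgY'⟩ hbY
        spr := hS
        amp := ample_prin _ _ _ (bc_ample hY ⟨gY, hgY'⟩ hbY _ (hψa _ hHa))
        tr := hCrv.tr
        eff := hW
        wz := hwz
        bpf := fun x _ => bpf_bc hY ⟨gY, hgY'⟩ hbY hsY γ hγ0 x
        tpos := ht₀
        tor := htor
        har := ?_
        rig := ⟨1, fun j => ?_⟩
        h1 := ?_
        y1 := ?_
        deg := ?_
        drop := ?_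
        as := ?_ }
    · have := bc_t0 hY ⟨gY, hgY'⟩ hbY
      obtain ⟨ι, hι, v, w, u, e1, e2, e3⟩ := har_tw hX' (bc_ex_gen hY ⟨gY, hgY'⟩ hbY)
        (nml_bc hY ⟨gY, hgY'⟩ hbY hN) hS hW hwz (bcD hY ⟨gY, hgY'⟩ hbY E)
      exact ⟨ι, hι, v, w, u, e1, fun i => by rw [e2 t₀ _ htor i]; ring, fun e j n m f hf hm => e3 e j n m f hf hm⟩
    · rw [← map_pow, ← map_mul, h0_bc hY ⟨gY, hgY'⟩ hbY hAY, hE]
      exact rig_Y hX hgX h.ufd hY ⟨gY, hgY'⟩ hct hψ hF hF' (by rwa [inv_inv]) hψ0 hb hb0 hτ hτ0 j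
    · intro g₁ hg₁
      have e1 : bcD hY ⟨gY, hgY'⟩ hbY E * (bcD hY ⟨gY, hgY'⟩ hbY (ψ H) * prin (bcM Y hbY) γ hγ0) =
          bcD hY ⟨gY, hgY'⟩ hbY (ψ (κ⁻¹ * H)) * prin (bcM Y hbY) (gsec K' l' s) (gsec_ne hbX hsX (π gY)) := by
        rw [hE, map_mul ψ, map_mul, mul_assoc, hprin _ (gsec_ne hbX hsX (π gY)) hγ.symm]
      rw [e1] at hg₁ ⊢
      obtain ⟨j, f, hf1, hf2⟩ := h1_Y h hr hHa hsX hfree hbX hbY hY ⟨gY, hgY'⟩ hct hψ hsY hgX' z hz hq hgY' z' hz' hq'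
        (by rw [hz, hz']) hκ' (fun U V => by rw [hr.tri.inv, hTκ, neg_zero]) (by rwa [inv_inv]) hP h3 (hPP _ hHa) hl hng hF
        (fun m a b ha hb hb0 => by
          obtain ⟨x, hx⟩ := hF' m a b ha hb hb0
          exact ⟨x, eq_div_of_mul_eq hb0 hx⟩) hR1 hτ0 hτ g₁ hg₁
      refine ⟨j, f, ?_, hf2⟩
      rw [mul_left_comm, e1]
      exact hf1
    · intro n hn
      have e1 : ψ H = ψ H₀ ^ M := by rw [hH, map_pow]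
      have e2 := hM₀ M (by omega) (C := subM hX' z') (φ := φ) (by rw [← e1]; exact hcut') n hn
      rw [pow_mul, ← e1] at e2
      have e3 : E * ψ H ^ n * (ψ H)⁻¹ = E * ψ H ^ (n - 1) := by
        obtain ⟨i, rfl⟩ : ∃ i, n = i + 1 := ⟨n - 1, by omega⟩
        rw [Nat.add_sub_cancel, pow_succ, ← mul_assoc, mul_inv_cancel_right]
      rw [e3] at e2
      have e4 : resD hX' z' (bcD hY ⟨gY, hgY'⟩ hbY E * (bcD hY ⟨gY, hgY'⟩ hbY (ψ H) * prin (bcM Y hbY) γ hγ0) ^ n) =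
          φ (E * ψ H ^ n) := by
        rw [map_mul, map_pow, hφg, hφb, map_mul, map_pow]
      rw [e4, h0_gen hY ⟨gY, hgY'⟩ hbY hAY, h0_gen hY ⟨gY, hgY'⟩ hbY hAY]
      omega
    · rw [hφb, hφp, hd]
    · have hpos' : 0 < dg (((resD hX' z').comp (bcD hY ⟨gY, hgY'⟩ hbY)) (ψ (P ^ R) * prin Y τ hτ0)) := by
        rw [← hφ, hφp]
        exact hdR0
      obtain ⟨j₁, hj₁⟩ := Pool.Agent.H61.AB.h4_drop h.tr hfg hJ hsX hjj (halg jj hjj) hζ hFa hY hgY' hAY π hct.le hsY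
        (E * ψ H) (fun y => by
          rw [mul_eq, hE, hψ, hψ, div_eq_mul_inv, mul_comm]
          rfl) hbY z' hz' hq' hCrv.tr (hNz hN) (ψ (P ^ R) * prin Y τ hτ0) hW1 hpos'
      refine ⟨j₁, fun j hj => ?_⟩
      have e1 := hj₁ j hj
      rw [← hφ, hφp, ← hd] at e1
      have e2 : resD hX' z' (bcD hY ⟨gY, hgY'⟩ hbY E * (bcD hY ⟨gY, hgY'⟩ hbY (ψ (P ^ R) * prin Y τ hτ0) ^ j *
          (bcD hY ⟨gY, hgY'⟩ hbY (ψ H) * prin (bcM Y hbY) γ hγ0))) = φ (E * ψ H) * φ (ψ (P ^ R)) ^ j := by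
        rw [map_mul, map_mul, map_pow, hφg, hφb, hφb, hφp, map_mul φ]
        simp only [mul_assoc, mul_comm]
      have e3 : resD hX' z' (bcD hY ⟨gY, hgY'⟩ hbY E * (bcD hY ⟨gY, hgY'⟩ hbY (ψ H) * prin (bcM Y hbY) γ hγ0)) =
          φ (E * ψ H) := by
        rw [map_mul, hφg, hφb, map_mul]
      rw [e2, e3]
      exact_mod_cast e1
    · intro j
      obtain ⟨m₀, hm₀⟩ := hasN j
      refine ⟨m₀, fun m hm => ?_⟩
      have e1 := hm₀ m hm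
      rw [← hE] at e1
      have e2 : bcD hY ⟨gY, hgY'⟩ hbY E * (bcD hY ⟨gY, hgY'⟩ hbY (ψ (P ^ R) * prin Y τ hτ0) ^ j *
          (bcD hY ⟨gY, hgY'⟩ hbY (ψ H) * prin (bcM Y hbY) γ hγ0) ^ m) =
          bcD hY ⟨gY, hgY'⟩ hbY (E * (ψ (P ^ R) * prin Y τ hτ0) ^ j) *
          (bcD hY ⟨gY, hgY'⟩ hbY (ψ H) * prin (bcM Y hbY) γ hγ0) ^ m := by
        obtain ⟨V, hV⟩ : ∃ V, V = ψ (P ^ R) * prin Y τ hτ0 := ⟨_, rfl⟩
        rw [← hV, map_mul (bcD hY ⟨gY, hgY'⟩ hbY) E, map_pow (bcD hY ⟨gY, hgY'⟩ hbY) V, mul_assoc]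
      have e3 : E * (ψ (P ^ R) * prin Y τ hτ0) ^ j * ψ H ^ m =
          E * (ψ (P ^ m₄) ^ (j * N) * ψ H ^ m) * prin Y (τ ^ j) (pow_ne_zero _ hτ0) := by
        have e4 : (prin Y τ hτ0) ^ j = prin Y (τ ^ j) (pow_ne_zero _ hτ0) := by
          apply Cart.ext'
          intro y
          rw [pow_eq]
          rfl
        rw [mul_pow, e4, hPR, map_pow, ← pow_mul, mul_comm N j]
        simp only [mul_comm, mul_left_comm]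
      rw [e2, h0_gen hY ⟨gY, hgY'⟩ hbY hAY, h0_gen hY ⟨gY, hgY'⟩ hbY hAY, e3, h0_prin]
      have e5 : (d : ℤ) = N * dg (φ (ψ (P ^ m₄))) := by rw [hd, hdR]
      have e6 : (d : ℝ) = N * (dg (φ (ψ (P ^ m₄))) : ℤ) := by exact_mod_cast e5
      have e7 : (h0 (E * ψ H ^ m) 1 : ℝ) + (j * m * d : ℕ) ≤ h0 (E * (ψ (P ^ m₄) ^ (j * N) * ψ H ^ m)) 1 := by
        push_cast
        rw [e6]
        linarith
      exact_mod_cast e7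
  exact td_false TD'

end Pool.Agent.H60.AP
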