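import Pool.Agent.H60.AP.Asy
import Pool.Agent.H59.KI.Ki

/-!
# [H60 AP Asf] abundance: the assembly for `Y = yM X F` (MP_e49dc9_ag)

`asm_false`: the output of `ki` (H59/KI/Ki), `Y = yM X F`, `as_X` (H43/AS/AsX) and `asm_core`.
-/

set_option autoImplicit false

namespace Pool.Agent.H60.AP

open Pool.Agent.H54.RV Pool.Agent.H83.TU Pool.Agent.H83.TK Pool.Agent.H24.TK Pool.Agent.H41.TK Pool.Agent.H24.AB
  Pool.Agent.H83.AY Pool.Agent.H47.YP Pool.Agent.H4.YB Pool.Agent.H43.WR Pool.Agent.H43.AS Pool.Agent.H32.NY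
open Pool.Agent.H24.VP (RR)
open Pool.Agent.H20.AB (nef_pow)

variable {k K : Type} [Field k] [Field K] [Algebra k K] {X : Mod k K}
  {T : Cart X → Cart X → Cart X → ℝ} {l : Cart X → ℝ} {c : ℝ}

/-- a field of transcendence degree one is algebraic over every transcendental element -/
theorem alg_one {k F : Type} [Field k] [Field F] [Algebra k F] (hF : Algebra.trdeg k F = 1) {ζ : F}
    (hζ : Transcendental k ζ) (x : F) : IsAlgebraic (Algebra.adjoin k {ζ}) x := by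
  have h1 : AlgebraicIndependent k (fun _ : Unit => ζ) := by
    rw [algebraicIndependent_unique_type_iff]
    exact hζ
  have h2 := h1.isTranscendenceBasis_of_trdeg_le (by rw [hF]; exact Cardinal.one_lt_aleph0) (by rw [hF]; simp)
  have h3 := h2.isAlgebraic
  have h4 : (Set.range fun _ : Unit => ζ) = {ζ} := Set.range_const
  rw [h4] at h3
  exact h3.isAlgebraic x

theorem asm_false [CharZero k] [T0Space X.P] (h : Hyp X) (hr : RR T l c)
    {J : K → K → K → K} {κ : Cart X} (hJ : Jac X J κ) {t₀ : ℕ} (ht₀ : 0 < t₀) {θ : K} (hθ0 : θ ≠ 0)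
    (hθ : ∀ x, Un (X.O x) (θ * κ.eq x ^ t₀))
    (hκ : ∀ B : Cart X, Ample B → Ample (B * κ)) (hκ' : ∀ B : Cart X, Ample B → Ample (B * κ⁻¹))
    (hTκ : ∀ U V, T κ U V = 0)
    {P : Cart X} (hP : ∀ B : Cart X, Ample B → Ample (B * P)) (h3 : T P P P = 0)
    (hPP : ∀ A : Cart X, Ample A → 0 < T P P A) (hl : 0 < l P)
    (hng : ¬ ∃ c₀ : ℝ, 0 < c₀ ∧ ∃ n₀ : ℕ, ∀ n : ℕ, n₀ ≤ n → c₀ * (n : ℝ) ^ 2 ≤ h0 (P ^ n) 1)
    {F : IntermediateField k K} {G : Cart X} {s t : K}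
    (hF : ∀ x : F, ∃ (m : ℕ) (a b : K), Sec (P ^ m) 1 a ∧ Sec (P ^ m) 1 b ∧ b ≠ 0 ∧ algebraMap F K x * b = a)
    (hF' : ∀ (m : ℕ) (a b : K), Sec (P ^ m) 1 a → Sec (P ^ m) 1 b → b ≠ 0 → ∃ x : F, algebraMap F K x * b = a)
    (hFt : Algebra.trdeg k F = 1) (hs : Sec G 1 s) (ht : Sec G 1 t) (hs0 : s ≠ 0) (ht0 : t ≠ 0)
    (hζ : Transcendental k (s / t)) (hc : Cop G s t) (hPPG : T P P G = 0) (hPGG : T P G G ≤ 0)
    (hFF : IntermediateField.adjoin k {s / t} ≤ F)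
    (hfin : FiniteDimensional (IntermediateField.adjoin k {s / t}) (IntermediateField.extendScalars hFF))
    (hAPG : ∀ A : Cart X, Ample A → 0 < T A P G) : False := by
  have hX := h.var
  have hgX := h.gen
  have hT0 : T0Space (yM X F).P := t0_y hX hgX
  have htr : Algebra.trdeg F K = 2 := by
    have h1 := trdeg_y (n := 2) (by rw [h.tr]; norm_num) hFt
    exact_mod_cast h1
  have hO := ov_y (F := F) hX hgX
  obtain ⟨ζ, hζd⟩ : ∃ ζ : F, ζ = ⟨s / t, hFF (IntermediateField.mem_adjoin_simple_self k _)⟩ := ⟨_, rfl⟩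
  have hζ' : Transcendental k ζ := by
    have h1 : algebraMap F K ζ = s / t := by rw [hζd]; rfl
    rw [← h1] at hζ
    exact (transcendental_algebraMap_iff (algebraMap F K).injective).1 hζ
  have hgen : ∀ g, Gen (yM X F) g → Gen X (piY g) := by
    intro g hg
    refine gen_of_units hX hgX.choose_spec fun a ha h0 => ?_
    have h1 : Un ((yM X F).O g) a := ⟨h0, by rw [hg.top]; exact Algebra.mem_top, by rw [hg.top]; exact Algebra.mem_top⟩
    exact (pi_un g ha).1 h1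
  have hκi : ∀ x, Un (X.O x) (θ⁻¹ * (κ⁻¹).eq x ^ t₀) := by
    intro x
    have h1 := un_inv (hθ x)
    have h2 : (θ * κ.eq x ^ t₀)⁻¹ = θ⁻¹ * (κ⁻¹).eq x ^ t₀ := by
      show _ = θ⁻¹ * ((κ.eq x)⁻¹) ^ t₀
      rw [mul_inv, inv_pow]
    rwa [h2] at h1
  have hD : ∀ V : Cart (yM X F), h0 (V * (psi (F := F) hX hgX κ⁻¹) ^ t₀) 1 = h0 V 1 :=
    tor_h0 (inv_ne_zero hθ0) fun y => pi_un' y (hκi (piY y))
  refine asm_core h hr (K_fg hX hgX) hJ ht₀ hθ0 hθ hκ hκ' hTκ hP h3 hPP hl hng (F := F) (Y := yM X F)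
    (ψ := psi hX hgX) (isVar_y hX hgX) (gen_y hX hgX) nml_y ctr_y (fun D y => rfl) hgen htr (fun D hD => psi_ample hX hgX hD)
    (fun H r t hfr => fr_y hX hgX hfr) hF hF' hζ' (fun x => alg_one hFt hζ' x) ?_
  intro W A k' K' _ _ _ _ C φ hW hA hC
  obtain ⟨n, hn, rfl⟩ := hW
  have e1 : T (P ^ n) (P ^ n) G = 0 := by rw [hr.tri.pow, hr.tri.pow2, hPPG, mul_zero, mul_zero]
  have e2 : T (P ^ n) G G ≤ 0 := by
    rw [hr.tri.pow]
    exact mul_nonpos_of_nonneg_of_nonpos (Nat.cast_nonneg n) hPGG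
  have hpos : (0 : ℝ) < Module.finrank (IntermediateField.adjoin k {s / t}) (IntermediateField.extendScalars hFF) := by
    exact_mod_cast Module.finrank_pos
  obtain ⟨-, h5, -, M, hM, h6⟩ := as_X hX hgX (isVar_y hX hgX) (gen_y hX hgX) htr hO (fun D hD => psi_ample hX hgX hD)
    hs ht hs0 ht0 hζ hc hFF hr (A := A) (W := P ^ n) (fun i => by rw [← pow_mul]; exact nef_pow hP _ _ hA) e1 e2 rfl
    ht₀ hD hC
  refine ⟨?_, M, hM, h6⟩
  have h7 : (0 : ℝ) < dg (φ (psi hX hgX (P ^ n))) := by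
    rw [h5, hr.tri.pow2]
    have := hAPG A hA
    have : (0 : ℝ) < n := by exact_mod_cast hn
    positivity
  exact_mod_cast h7

/-- **the growth**: `P` nef, `T(P,P,P) = 0`, `0 < T(P,P,A)`, `0 < l(P)`: the multiples of `P` have at least `c n ^ 2` sections -/
theorem growth [CharZero k] [IsAlgClosed k] [T0Space X.P] (h : Hyp X) (hr : RR T l c)
    {J : K → K → K → K} {κ : Cart X} (hJ : Jac X J κ) {t₀ : ℕ} (ht₀ : 0 < t₀) {θ : K} (hθ0 : θ ≠ 0)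
    (hθ : ∀ x, Un (X.O x) (θ * κ.eq x ^ t₀))
    (hκ : ∀ B : Cart X, Ample B → Ample (B * κ)) (hκ' : ∀ B : Cart X, Ample B → Ample (B * κ⁻¹))
    (hTκ : ∀ U V, T κ U V = 0)
    {P : Cart X} (hP : ∀ B : Cart X, Ample B → Ample (B * P)) (h3 : T P P P = 0)
    (hPP : ∀ A : Cart X, Ample A → 0 < T P P A) (hl : 0 < l P)
    (hAPG : ∀ (G : Cart X) (s t : K), Sec G 1 s → Sec G 1 t → s ≠ 0 → t ≠ 0 → Transcendental k (s / t) → Cop G s t →
      T P P G = 0 → ∀ A : Cart X, Ample A → 0 < T A P G) :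
    ∃ c₀ : ℝ, 0 < c₀ ∧ ∃ n₀ : ℕ, ∀ n : ℕ, n₀ ≤ n → c₀ * (n : ℝ) ^ 2 ≤ h0 (P ^ n) 1 := by
  by_contra hng
  obtain ⟨F, G, s, t, h1, h2, h4, h5, h6, h7, h8, h9, h10, h11, h12, hFF, hfin⟩ :=
    Pool.Agent.H59.KI.ki h hr hP h3 hPP hl hng
  exact asm_false h hr hJ ht₀ hθ0 hθ hκ hκ' hTκ hP h3 hPP hl hng h1 h2 h4 h5 h6 h7 h8 h9 h10 h11 h12 hFF hfin
    (hAPG G s t h5 h6 h7 h8 h9 h10 h11)

end Pool.Agent.H60.AP
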