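import Pool.Agent.H60.AP.Tf
import Pool.Agent.H24.AB.Gm
import Pool.Agent.H20.AB.Cl
import Pool.Agent.H83.AY.Har
import Pool.Agent.H83.AY.Nrm

/-!
# [H60 AP Sml] abundance: small fields of `TD` on the base change (MP_e49dc9_ag)
-/

set_option autoImplicit false

namespace Pool.Agent.H60.AP

open Pool.Agent.H54.RV Pool.Agent.H83.TU Pool.Agent.H83.TK Pool.Agent.H24.TK Pool.Agent.H41.TK Pool.Agent.H24.AB
  Pool.Agent.H83.AY

section

variable {k K : Type} [Field k] [Field K] [Algebra k K] {X : Mod k K}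

theorem secL_congr {D E : Cart X} (u : X.P → K) (hu : ∀ x, Un (X.O x) (u x)) (h : ∀ x, D.eq x = E.eq x * u x) :
    secL D 1 = secL E 1 := by
  ext f
  show (∀ x, f * D.eq x ^ 1 ∈ X.O x) ↔ ∀ x, f * E.eq x ^ 1 ∈ X.O x
  refine forall_congr' fun x => ?_
  rw [pow_one, pow_one, h, ← mul_assoc, mem_mul_un (hu x)]

theorem h0_congr {D E : Cart X} (u : X.P → K) (hu : ∀ x, Un (X.O x) (u x)) (h : ∀ x, D.eq x = E.eq x * u x) :
    h0 D 1 = h0 E 1 := by
  show Module.finrank k (secL D 1) = Module.finrank k (secL E 1)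
  rw [secL_congr u hu h]

/-- a torsion divisor does not change the number of sections -/
theorem tor_h0 {Q : Cart X} {t : ℕ} {θ : K} (hθ0 : θ ≠ 0) (hθ : ∀ x, Un (X.O x) (θ * Q.eq x ^ t)) (V : Cart X) :
    h0 (V * Q ^ t) 1 = h0 V 1 := by
  rw [← h0_prin (V * Q ^ t) θ hθ0]
  refine h0_congr (fun x => θ * Q.eq x ^ t) hθ fun x => ?_
  rw [mul_eq, mul_eq, pow_eq]
  show V.eq x * Q.eq x ^ t * θ = _
  ring

end

section

variable {F K F' K' : Type} [Field F] [Field K] [Field F'] [Field K'] [Algebra F K] [Algebra F F'] [Algebra K K']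
  [Algebra F' K'] [Algebra F K'] [IsScalarTower F K K'] [IsScalarTower F F' K'] {σ : Type} [Fintype σ] {Y : Mod F K}
  [T0Space Y.P] {l : σ → F'}

theorem bcD_prin (hY : IsVar Y) (hgY : ∃ g, Gen Y g) (h : BC F K F' K' l) (f : K) (hf : f ≠ 0) :
    bcD hY hgY h (prin Y f hf) = prin (bcM Y h) (algebraMap K K' f) ((map_ne_zero _).2 hf) :=
  Cart.ext' _ _ fun _ => rfl

theorem h0_bc [CharZero F] (hY : IsVar Y) (hgY : ∃ g, Gen Y g) (h : BC F K F' K' l) (hA : ∃ A : Cart Y, Ample A) (D : Cart Y) :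
    h0 (bcD hY hgY h D) 1 = h0 D 1 := by
  obtain ⟨A, hA⟩ := hA
  have := fd hY hgY hA D
  exact (bc_h0 hY hgY h D 1).2

/-- powers of the divisor of the generic member -/
theorem h0_gen [CharZero F] (hY : IsVar Y) (hgY : ∃ g, Gen Y g) (h : BC F K F' K' l) (hA : ∃ A : Cart Y, Ample A) (D A : Cart Y)
    (f : K') (hf : f ≠ 0) (n : ℕ) :
    h0 (bcD hY hgY h D * (bcD hY hgY h A * prin (bcM Y h) f hf) ^ n) 1 = h0 (D * A ^ n) 1 := by
  have h1 : bcD hY hgY h D * (bcD hY hgY h A * prin (bcM Y h) f hf) ^ n =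
      bcD hY hgY h (D * A ^ n) * prin (bcM Y h) (f ^ n) (pow_ne_zero _ hf) := by
    apply Cart.ext'
    intro x
    rw [map_mul, map_pow, mul_pow]
    simp only [mul_eq, pow_eq]
    show _ * (_ * f ^ n) = _ * _ * (f ^ n)
    ring
  rw [h1, h0_prin, h0_bc hY hgY h hA]

theorem eff_bc (hY : IsVar Y) (hgY : ∃ g, Gen Y g) (h : BC F K F' K' l) {D : Cart Y} (hD : ∀ y, D.eq y ∈ Y.O y) :
    Effective (bcD hY hgY h D) := fun x => alg_mem h x (hD _)

omit [Fintype σ] [T0Space Y.P] in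
theorem wz_bc {g : Y.P} (hg : Gen Y g) (h : BC F K F' K' l) (z : BP Y σ) (hz : z.x = g) {a : K} (ha : a ≠ 0) :
    Un (bcO h z) (algebraMap K K' a) := by
  have h1 : ∀ b : K, b ∈ Y.O z.x := fun b => by
    rw [hz, hg.top]
    exact Algebra.mem_top
  exact (un_alg h z (h1 a)).2 ⟨ha, h1 _, h1 _⟩

/-- the generic member has no base points -/
theorem bpf_bc (hY : IsVar Y) (hgY : ∃ g, Gen Y g) (h : BC F K F' K' l) {A : Cart Y} {s : Option σ → K}
    (hs : LSys Y A s) (f : K') (hf : f ≠ 0) (x : (bcM Y h).P) :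
    ∃ u ∈ secL (bcD hY hgY h A * prin (bcM Y h) f hf) 1,
      Un ((bcM Y h).O x) (u * (bcD hY hgY h A * prin (bcM Y h) f hf).eq x) := by
  have h1 : ∀ (i : Option σ) (y : BP Y σ),
      algebraMap K K' (s i) / f * (bcD hY hgY h A * prin (bcM Y h) f hf).eq y = algebraMap K K' (s i * A.eq y.x) := by
    intro i y
    show algebraMap K K' (s i) / f * (algebraMap K K' (A.eq y.x) * f) = _
    rw [map_mul]
    field_simp
  obtain ⟨i, hi⟩ := hs.free (BP.x (X := Y) (σ := σ) x)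
  refine ⟨algebraMap K K' (s i) / f, fun y => ?_, ?_⟩
  · rw [pow_one, h1 i y]
    exact alg_mem h y (hs.mem _ i)
  · rw [h1 i x]
    exact (un_alg h x (hs.mem _ i)).2 hi

theorem tor_bc (hY : IsVar Y) (hgY : ∃ g, Gen Y g) (h : BC F K F' K' l) {Q : Cart Y} {t : ℕ} {θ : K}
    (hθ : ∀ y, Un (Y.O y) (θ * Q.eq y ^ t)) (x : (bcM Y h).P) :
    Un ((bcM Y h).O x) (algebraMap K K' θ * (bcD hY hgY h Q).eq x ^ t) := by
  have h1 := hθ (BP.x (X := Y) (σ := σ) x)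
  have h2 := (un_alg h x h1.2.1).2 h1
  rw [map_mul, map_pow] at h2
  exact h2

/-- the restriction to the generic curve does not see principal divisors -/
theorem resD_gen (hY : IsVar Y) (hgY : ∃ g, Gen Y g) (h : BC F K F' K' l) (z : (bcM Y h).P) (A : Cart Y) (f : K')
    (hf : f ≠ 0) : resD (isVar_bc hY hgY h) z (bcD hY hgY h A * prin (bcM Y h) f hf) =
      ((resD (isVar_bc hY hgY h) z).comp (bcD hY hgY h)) A := by
  rw [map_mul, resD_prin, mul_one]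
  rfl

theorem resD_prin' (hY : IsVar Y) (hgY : ∃ g, Gen Y g) (h : BC F K F' K' l) (z : (bcM Y h).P) (A : Cart Y) (f : K)
    (hf : f ≠ 0) : ((resD (isVar_bc hY hgY h) z).comp (bcD hY hgY h)) (A * prin Y f hf) =
      ((resD (isVar_bc hY hgY h) z).comp (bcD hY hgY h)) A := by
  rw [map_mul]
  have h1 : ((resD (isVar_bc hY hgY h) z).comp (bcD hY hgY h)) (prin Y f hf) = 1 := by
    show resD (isVar_bc hY hgY h) z (bcD hY hgY h (prin Y f hf)) = 1
    rw [bcD_prin, resD_prin]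
  rw [h1, mul_one]

end

/-- rigidity on `Y` -/
theorem rig_Y {k F K : Type} [Field k] [Field F] [Field K] [Algebra k K] [Algebra F K] {X : Mod k K} {Y : Mod F K}
    {c : Y.P → X.P} {P : Cart X} (hX : IsVar X) (hgX : ∃ g, Gen X g) (hu : ∀ x, UniqueFactorizationMonoid (X.O x))
    (hY : IsVar Y) (hgY : ∃ g, Gen Y g) (hc : Ctr X Y c) {ψ : Cart X →* Cart Y} (hψ : ∀ D y, (ψ D).eq y = D.eq (c y))
    (hq : ∀ x : F, ∃ (m : ℕ) (a b : K), Sec (P ^ m) 1 a ∧ Sec (P ^ m) 1 b ∧ b ≠ 0 ∧ algebraMap F K x * b = a)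
    (hq' : ∀ (m : ℕ) (a b : K), Sec (P ^ m) 1 a → Sec (P ^ m) 1 b → b ≠ 0 → ∃ x : F, algebraMap F K x * b = a)
    {E : Cart X} {m : ℕ} {ψ₀ b₀ : K} (hψ₀ : Sec (P ^ m * E⁻¹) 1 ψ₀) (hψ0 : ψ₀ ≠ 0) (hb : Sec (P ^ m) 1 b₀) (hb0 : b₀ ≠ 0)
    {r : ℕ} {τ : K} (hτ : Sec (P ^ r) 1 τ) (hτ0 : τ ≠ 0) (j : ℕ) :
    h0 (ψ E * (ψ (P ^ r) * prin Y τ hτ0) ^ j) 1 ≤ 1 := by
  have h1 : secL (ψ E * (ψ (P ^ r) * prin Y τ hτ0) ^ j) 1 ≤ Submodule.span F {b₀ / ψ₀} := by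
    intro f hf
    have h2 : Sec (ψ (P ^ (r * j) * E)) 1 (f * τ ^ j) := by
      intro y
      have h3 := hf y
      rw [pow_one] at h3 ⊢
      have h4 : f * τ ^ j * (ψ (P ^ (r * j) * E)).eq y = f * (ψ E * (ψ (P ^ r) * prin Y τ hτ0) ^ j).eq y := by
        have e1 : (ψ E * (ψ (P ^ r) * prin Y τ hτ0) ^ j).eq y = E.eq (c y) * ((P.eq (c y) ^ r) * τ) ^ j := by
          rw [mul_eq, pow_eq (ψ (P ^ r) * prin Y τ hτ0), mul_eq, hψ, hψ, pow_eq]
          rfl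
        rw [e1, hψ, mul_eq, pow_eq, mul_pow, pow_mul]
        ring
      rwa [h4]
    obtain ⟨x, hx⟩ := Pool.Agent.H20.AB.rig hX hgX hu hY hgY hc hq hq' hψ₀ hψ0 hb hb0 hτ hτ0 j (fun y => hψ _ y) h2
    rw [hx, ← Algebra.smul_def]
    exact Submodule.smul_mem _ _ (Submodule.mem_span_singleton_self _)
  have h2 : Module.finrank F (Submodule.span F {b₀ / ψ₀}) = 1 :=
    finrank_span_singleton (div_ne_zero hb0 hψ0)
  have h3 := Submodule.finrank_mono h1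
  rw [h2] at h3
  exact h3

end Pool.Agent.H60.AP
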