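import Pool.Agent.H60.AT.Fin
import Pool.Agent.H24.TK.Fin
import Pool.Agent.H83.TK.SubE
import Pool.Agent.H83.TK.SubV
import Pool.Agent.H41.TK.DG
import Pool.Agent.H41.TK.MU

/-!
# [H60 AP Td] abundance: the abstract theorem on a surface, twisted by a torsion class (MP_e49dc9_ag)

`Y : Mod F K` a projective variety, `z` the generic point of the ample prime divisor `S`, a curve, `W` an effective divisor which does not
contain `z`, `Q` a torsion class.  `TD`: the hypotheses (meant: `Y` = base change of the normal surface, `S` the generic curve, `Q` the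
canonical class of the threefold); `td_false` (file Tf): they are contradictory.

* `Ew`: the restriction of `W` to the curve, with the local equations `rs z (W.eq x)`.
* `LL S W Q e j n = secL (Q ^ e * (W ^ j * S ^ n)) 1`, `lamz`: the leading coefficient, `Gm`: the sections on the curve.
-/

set_option autoImplicit false

namespace Pool.Agent.H60.AP

open Pool.Agent.H54.RV Pool.Agent.H83.TU Pool.Agent.H83.TK Pool.Agent.H24.TK Pool.Agent.H41.TK Pool.Agent.H60.AT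

theorem ord_add {F K : Type} [Field F] [Field K] [Algebra F K] (p : Place F K) (f g : K) (hf : f ≠ 0) (hg : g ≠ 0)
    (hfg : f + g ≠ 0) : min (p.ord f) (p.ord g) ≤ p.ord (f + g) := by
  have key : ∀ f g : K, f ≠ 0 → g ≠ 0 → f + g ≠ 0 → p.ord f ≤ p.ord g → p.ord f ≤ p.ord (f + g) := by
    intro f g hf hg hfg h
    have h1 : 0 ≤ p.ord (g / f) := by
      rw [div_eq_mul_inv, ord_mul p _ _ hg (inv_ne_zero hf), ord_inv]
      omega
    have h2 := (ord_nonneg p _ (div_ne_zero hg hf)).1 h1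
    have h3 : (f + g) / f = 1 + g / f := by
      field_simp
    have h4 : (f + g) / f ∈ p.R := by
      rw [h3]
      exact p.R.add_mem _ _ p.R.one_mem h2
    have h5 := (ord_nonneg p _ (div_ne_zero hfg hf)).2 h4
    rw [div_eq_mul_inv, ord_mul p _ _ hfg (inv_ne_zero hf), ord_inv] at h5
    omega
  rcases le_total (p.ord f) (p.ord g) with h | h
  · exact (min_le_left _ _).trans (key f g hf hg hfg h)
  · rw [add_comm] at hfg ⊢
    exact (min_le_right _ _).trans (key g f hg hf hfg h)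

theorem ord_const {F K : Type} [Field F] [Field K] [Algebra F K] (p : Place F K) (c : F) (hc : c ≠ 0) :
    p.ord (algebraMap F K c) = 0 := by
  have h0 : algebraMap F K c ≠ 0 := (map_ne_zero _).2 hc
  have h1 := (ord_nonneg p _ h0).2 (p.mem c)
  have h2 := (ord_nonneg p _ (inv_ne_zero h0)).2 (by rw [← map_inv₀]; exact p.mem c⁻¹)
  rw [ord_inv] at h2
  omega

variable {F K : Type} [Field F] [Field K] [Algebra F K] {Y : Mod F K}

/-- the sections -/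
noncomputable def LL (S W Q : Cart Y) (e j n : ℕ) : Submodule F K := secL (Q ^ e * (W ^ j * S ^ n)) 1

theorem mem_LL (S W Q : Cart Y) (e j n : ℕ) (f : K) :
    f ∈ LL S W Q e j n ↔ ∀ x, f * (Q.eq x ^ e * (W.eq x ^ j * S.eq x ^ n)) ∈ Y.O x := by
  have h : ∀ x, (Q ^ e * (W ^ j * S ^ n)).eq x = Q.eq x ^ e * (W.eq x ^ j * S.eq x ^ n) := fun x => by
    rw [mul_eq, mul_eq, pow_eq, pow_eq, pow_eq]
  constructor
  · intro h1 x
    have h2 := h1 x
    rwa [pow_one, h] at h2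
  · intro h1 x
    show f * (Q ^ e * (W ^ j * S ^ n)).eq x ^ 1 ∈ Y.O x
    rw [pow_one, h]
    exact h1 x

theorem LL_mono (S W Q : Cart Y) (hS : Effective S) (hW : Effective W) {e j j' n n' : ℕ} (hj : j ≤ j') (hn : n ≤ n') :
    LL S W Q e j n ≤ LL S W Q e j' n' := by
  intro f hf
  rw [mem_LL] at hf ⊢
  intro x
  obtain ⟨i, rfl⟩ := Nat.exists_eq_add_of_le hj
  obtain ⟨m, rfl⟩ := Nat.exists_eq_add_of_le hn
  have h1 := mul_mem (mul_mem (hf x) (pow_mem (hW x) i)) (pow_mem (hS x) m)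
  have h2 : f * (Q.eq x ^ e * (W.eq x ^ j * S.eq x ^ n)) * W.eq x ^ i * S.eq x ^ m =
      f * (Q.eq x ^ e * (W.eq x ^ (j + i) * S.eq x ^ (n + m))) := by
    rw [pow_add, pow_add]
    ring
  rwa [h2] at h1

theorem LL_mul (S W Q : Cart Y) {e e' j j' n n' : ℕ} {f g : K} (hf : f ∈ LL S W Q e j n) (hg : g ∈ LL S W Q e' j' n') :
    f * g ∈ LL S W Q (e + e') (j + j') (n + n') := by
  rw [mem_LL] at hf hg ⊢
  intro x
  have h1 := mul_mem (hf x) (hg x)
  have h2 : f * (Q.eq x ^ e * (W.eq x ^ j * S.eq x ^ n)) * (g * (Q.eq x ^ e' * (W.eq x ^ j' * S.eq x ^ n'))) =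
      f * g * (Q.eq x ^ (e + e') * (W.eq x ^ (j + j') * S.eq x ^ (n + n'))) := by
    rw [pow_add, pow_add, pow_add]
    ring
  rwa [h2] at h1

/-- the hypotheses -/
structure TD (Y : Mod F K) (hX : IsVar Y) (z : Y.P) (S W Q : Cart Y) (t : ℕ) (θ : K) (d : ℕ) : Prop where
  gen : ∃ g, Gen Y g
  spr : SPr Y z S
  amp : Ample S
  tr : Algebra.trdeg F (Y.kap z) = 1
  eff : Effective W
  wz : Un (Y.O z) (W.eq z)
  bpf : ∀ x, z ⤳ x → ∃ u ∈ secL S 1, Un (Y.O x) (u * S.eq x)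
  tpos : 0 < t
  tor : ∀ x, Un (Y.O x) (θ * Q.eq x ^ t)
  har : ∃ (ι : Type) (_ : Finite ι) (v : ι → Place F K) (w u : ι → ℤ), (∀ i, 0 < w i) ∧
    (∀ i, (v i).ord θ = -((t : ℤ) * u i)) ∧ ∀ (e j n m : ℕ) (f : K), f ≠ 0 → f ∈ LL S W Q e m n →
      (f ∈ LL S W Q e j n ↔ ∀ i, -(j : ℤ) * w i ≤ (v i).ord f + e * u i)
  rig : ∃ c : ℕ, ∀ j, h0 (Q * W ^ j) 1 ≤ c
  h1 : ∀ g : Y.kap z, Sec (resD hX z (Q * S)) 1 g →
    ∃ (j : ℕ) (f : K), Sec (Q * (W ^ j * S)) 1 f ∧ Y.rs z (f * (Q * S).eq z) = g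
  y1 : ∀ n, 2 ≤ n → h0 (resD hX z (Q * S ^ n)) 1 + h0 (Q * S ^ (n - 1)) 1 ≤ h0 (Q * S ^ n) 1
  deg : dg (resD hX z W) = (d : ℤ)
  drop : ∃ j₁ : ℕ, ∀ j, j₁ ≤ j → h0 (resD hX z (Q * (W ^ j * S))) 1 + 1 ≤ h0 (resD hX z (Q * S)) 1 + j * d
  as : ∀ j, ∃ m₀, ∀ m, m₀ ≤ m → h0 (Q * S ^ m) 1 + j * m * d ≤ h0 (Q * (W ^ j * S ^ m)) 1

section

variable {hX : IsVar Y} {z : Y.P} {S W Q : Cart Y} {d : ℕ}

/-- the leading coefficient -/
noncomputable def lamz (z : Y.P) (S Q : Cart Y) (e n : ℕ) (f : K) : Y.kap z := Y.rs z (f * (Q.eq z ^ e * S.eq z ^ n))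

/-- the restriction of `W` to the curve -/
noncomputable def Ew (hX : IsVar Y) (hw : Un (Y.O z) (W.eq z)) : Cart (subM hX z) :=
  resD hX z W * prin (subM hX z) (Y.rs z (W.eq z)) ((rs_ne z hw.2.1).2 hw)

theorem Ew_eq (hw : Un (Y.O z) (W.eq z)) (x : (subM hX z).P) : (Ew hX hw).eq x = Y.rs z (W.eq x.1) := by
  show Y.rs z (W.eq x.1 / W.eq z) * Y.rs z (W.eq z) = _
  rw [← rs_mul z (quo_un W z x.1 x.2).2.1 hw.2.1, div_mul_cancel₀ _ (W.ne z)]

/-- the sections on the curve -/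
noncomputable def Gm (hX : IsVar Y) (hw : Un (Y.O z) (W.eq z)) (S Q : Cart Y) (e j n : ℕ) : Submodule F (Y.kap z) :=
  secL (resD hX z Q ^ e * (Ew hX hw ^ j * resD hX z S ^ n)) 1

theorem mem_Gm (hw : Un (Y.O z) (W.eq z)) (e j n : ℕ) (g : Y.kap z) :
    g ∈ Gm hX hw S Q e j n ↔ ∀ x : (subM hX z).P,
      g * ((resD hX z Q).eq x ^ e * ((Ew hX hw).eq x ^ j * (resD hX z S).eq x ^ n)) ∈ (subM hX z).O x := by
  have h : ∀ x, (resD hX z Q ^ e * (Ew hX hw ^ j * resD hX z S ^ n)).eq x =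
      (resD hX z Q).eq x ^ e * ((Ew hX hw).eq x ^ j * (resD hX z S).eq x ^ n) := fun x => by
    rw [mul_eq, mul_eq, pow_eq, pow_eq, pow_eq]
  constructor
  · intro h1 x
    have h2 := h1 x
    rwa [pow_one, h] at h2
  · intro h1 x
    show g * (resD hX z Q ^ e * (Ew hX hw ^ j * resD hX z S ^ n)).eq x ^ 1 ∈ (subM hX z).O x
    rw [pow_one, h]
    exact h1 x

/-- the functions with arbitrary poles along `W` are regular at `z` -/
theorem lam_mem (hw : Un (Y.O z) (W.eq z)) {e j n : ℕ} {f : K} (hf : f ∈ LL S W Q e j n) :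
    f * (Q.eq z ^ e * S.eq z ^ n) ∈ Y.O z := by
  have h1 := (mem_LL S W Q e j n f).1 hf z
  have h2 : f * (Q.eq z ^ e * (W.eq z ^ j * S.eq z ^ n)) = f * (Q.eq z ^ e * S.eq z ^ n) * W.eq z ^ j := by ring
  rw [h2, mem_mul_un (un_pow hw j)] at h1
  exact h1

theorem lam_Gm (hw : Un (Y.O z) (W.eq z)) {e j n : ℕ} {f : K} (hf : f ∈ LL S W Q e j n) :
    lamz z S Q e n f ∈ Gm hX hw S Q e j n := by
  rw [mem_Gm]
  intro x
  have h1 := lam_mem hw hf
  have h2 := (mem_LL S W Q e j n f).1 hf x.1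
  have hSx := quo_un S z x.1 x.2
  have hQx := quo_un Q z x.1 x.2
  have hWx : Un (Y.O z) (W.eq x.1) := by
    have h3 := un_mul (quo_un W z x.1 x.2) hw
    rwa [div_mul_cancel₀ _ (W.ne z)] at h3
  have h4 : (resD hX z Q).eq x ^ e * ((Ew hX hw).eq x ^ j * (resD hX z S).eq x ^ n) =
      Y.rs z ((Q.eq x.1 / Q.eq z) ^ e * (W.eq x.1 ^ j * (S.eq x.1 / S.eq z) ^ n)) := by
    rw [rs_mul z (pow_mem hQx.2.1 e) (mul_mem (pow_mem hWx.2.1 j) (pow_mem hSx.2.1 n)),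
      rs_mul z (pow_mem hWx.2.1 j) (pow_mem hSx.2.1 n), rs_pow z hQx.2.1, rs_pow z hWx.2.1, rs_pow z hSx.2.1, Ew_eq,
      resD_eq, resD_eq]
  rw [h4, lamz, ← rs_mul z h1 (mul_mem (pow_mem hQx.2.1 e) (mul_mem (pow_mem hWx.2.1 j) (pow_mem hSx.2.1 n)))]
  have h3 : f * (Q.eq z ^ e * S.eq z ^ n) * ((Q.eq x.1 / Q.eq z) ^ e * (W.eq x.1 ^ j * (S.eq x.1 / S.eq z) ^ n)) =
      f * (Q.eq x.1 ^ e * (W.eq x.1 ^ j * S.eq x.1 ^ n)) := by
    have := S.ne z
    have := Q.ne z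
    rw [div_pow, div_pow]
    field_simp
  rw [h3]
  exact rs_mem_subO hX x.2 h2

theorem h0_Gm (hw : Un (Y.O z) (W.eq z)) (e j n : ℕ) :
    Module.finrank F (Gm hX hw S Q e j n) = h0 (resD hX z (Q ^ e * (W ^ j * S ^ n))) 1 := by
  have h1 : resD hX z Q ^ e * (Ew hX hw ^ j * resD hX z S ^ n) = resD hX z (Q ^ e * (W ^ j * S ^ n)) *
      prin (subM hX z) (Y.rs z (W.eq z) ^ j) (pow_ne_zero _ ((rs_ne z hw.2.1).2 hw)) := by
    apply Cart.ext'
    intro x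
    rw [map_mul, map_mul, map_pow, map_pow, map_pow]
    simp only [Ew, mul_eq, pow_eq, mul_pow]
    show _ = _ * _ * (Y.rs z (W.eq z) ^ j)
    show (resD hX z Q).eq x ^ e * ((resD hX z W).eq x ^ j * (Y.rs z (W.eq z)) ^ j * (resD hX z S).eq x ^ n) = _
    ring
  show h0 (resD hX z Q ^ e * (Ew hX hw ^ j * resD hX z S ^ n)) 1 = _
  rw [h1, h0_prin]

end

end Pool.Agent.H60.AP
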