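import Pool.Agent.H60.AP.Td

/-!
# [H60 AP Tf] abundance: the data `PP` of a surface, twisted form, and the contradiction (MP_e49dc9_ag)
-/

set_option autoImplicit false

namespace Pool.Agent.H60.AP

open Pool.Agent.H54.RV Pool.Agent.H83.TU Pool.Agent.H83.TK Pool.Agent.H24.TK Pool.Agent.H41.TK Pool.Agent.H60.AT

variable {F K : Type} [Field F] [Field K] [Algebra F K] {Y : Mod F K}
  {hX : IsVar Y} {z : Y.P} {S W Q : Cart Y} {t : ℕ} {θ : K} {d : ℕ}

theorem lam_nun (hS : SPr Y z S) {e n : ℕ} {f : K} (hf : f * (Q.eq z ^ e * S.eq z ^ n) ∈ Y.O z) :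
    lamz z S Q e (n + 1) f = 0 := by
  have h1 : lamz z S Q e (n + 1) f = Y.rs z (f * (Q.eq z ^ e * S.eq z ^ n) * S.eq z) := by
    unfold lamz
    rw [pow_succ, mul_assoc, mul_assoc]
  rw [h1, rs_mul z hf (hS.eff z)]
  have h2 : Y.rs z (S.eq z) = 0 := by
    by_contra h
    exact hS.nun z specializes_rfl ((rs_ne z (hS.eff z)).1 h)
  rw [h2, mul_zero]

theorem ker_lam (hX : IsVar Y) (hS : SPr Y z S) (hw : Un (Y.O z) (W.eq z)) {e j n : ℕ} {f : K}
    (hf : f ∈ LL S W Q e j (n + 1)) (h0 : lamz z S Q e (n + 1) f = 0) : f ∈ LL S W Q e j n := by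
  have h1 := lam_mem hw hf
  have h2 : ¬ Un (Y.O z) (f * (Q ^ e * (W ^ j * S ^ (n + 1))).eq z ^ 1) := by
    intro h
    rw [pow_one, mul_eq, mul_eq, pow_eq, pow_eq, pow_eq] at h
    have h3 : f * (Q.eq z ^ e * (W.eq z ^ j * S.eq z ^ (n + 1))) = f * (Q.eq z ^ e * S.eq z ^ (n + 1)) * W.eq z ^ j := by
      ring
    rw [h3, un_mul_un (un_pow hw j)] at h
    exact (rs_ne z h1).2 h h0
  have h3 := (ex_mem hX hS (Q ^ e * (W ^ j * S ^ (n + 1))) 1 f).2 ⟨hf, h2⟩
  have h4 : (Q ^ e * (W ^ j * S ^ (n + 1))) ^ 1 * S⁻¹ = Q ^ e * (W ^ j * S ^ n) := by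
    rw [pow_one, pow_succ]
    group
  rw [h4] at h3
  exact h3

theorem th_LL (hθ : ∀ x, Un (Y.O x) (θ * Q.eq x ^ t)) {e j n : ℕ} {f : K} (hf : f ∈ LL S W Q (e + t) j n) :
    θ⁻¹ * f ∈ LL S W Q e j n := by
  rw [mem_LL] at hf ⊢
  intro x
  have h1 := mul_mem (hf x) (hθ x).2.2
  have hθ0 : θ ≠ 0 := left_ne_zero_of_mul (hθ x).1
  have hq := Q.ne x
  have h2 : f * (Q.eq x ^ (e + t) * (W.eq x ^ j * S.eq x ^ n)) * (θ * Q.eq x ^ t)⁻¹ =
      θ⁻¹ * f * (Q.eq x ^ e * (W.eq x ^ j * S.eq x ^ n)) := by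
    rw [pow_add]
    field_simp
  rwa [h2] at h1

/-- the data -/
noncomputable def ppOf (hX : IsVar Y) (hS : SPr Y z S) (hW : Effective W) (hw : Un (Y.O z) (W.eq z)) {ι : Type}
    (v : ι → Place F K) (w u : ι → ℤ) (hwp : ∀ i, 0 < w i) (ht : 0 < t) (hθ : ∀ x, Un (Y.O x) (θ * Q.eq x ^ t))
    (hv : ∀ i, (v i).ord θ = -((t : ℤ) * u i)) : PP F K (Y.kap z) ι where
  v i := (v i).ord
  w := w
  u := u
  t := t
  th := θ⁻¹
  Ni e n :=
    { carrier := {f | ∃ j, f ∈ LL S W Q e j n}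
      zero_mem' := ⟨0, Submodule.zero_mem _⟩
      add_mem' := by
        rintro f g ⟨j, hf⟩ ⟨j', hg⟩
        exact ⟨max j j', Submodule.add_mem _ (LL_mono S W Q hS.eff hW (le_max_left _ _) le_rfl hf)
          (LL_mono S W Q hS.eff hW (le_max_right _ _) le_rfl hg)⟩
      smul_mem' := by
        rintro c f ⟨j, hf⟩
        exact ⟨j, Submodule.smul_mem _ c hf⟩ }
  lam := lamz z S Q
  Gam := Gm hX hw S Q
  v_mul i f g hf hg := ord_mul (v i) f g hf hg
  v_add i f g hf hg hfg := ord_add (v i) f g hf hg hfg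
  v_c i c hc := ord_const (v i) c hc
  w_pos := hwp
  t_pos := ht
  th_ne := inv_ne_zero (left_ne_zero_of_mul (hθ z).1)
  v_th i := by
    rw [ord_inv, hv, neg_neg]
  th_Ni e n f := by
    rintro ⟨j, hf⟩
    exact ⟨j, th_LL hθ hf⟩
  one := ⟨0, by
    rw [mem_LL]
    intro x
    rw [pow_zero, pow_zero, pow_zero, mul_one, mul_one, mul_one]
    exact one_mem _⟩
  mul e e' n m f g := by
    rintro ⟨j, hf⟩ ⟨j', hg⟩
    exact ⟨j + j', LL_mul S W Q hf hg⟩
  mono e n f := by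
    rintro ⟨j, hf⟩
    exact ⟨j, LL_mono S W Q hS.eff hW le_rfl (Nat.le_succ n) hf⟩
  lam_add e n f g := by
    rintro ⟨j, hf⟩ ⟨j', hg⟩
    unfold lamz
    rw [add_mul, rs_add z (lam_mem hw hf) (lam_mem hw hg)]
  lam_smul e n c f := by
    rintro ⟨j, hf⟩
    unfold lamz
    rw [Algebra.smul_def, mul_assoc, rs_mul z ((Y.O z).algebraMap_mem c) (lam_mem hw hf), rs_alg, Algebra.smul_def]
  lam_mul e e' n m f g := by
    rintro ⟨j, hf⟩ ⟨j', hg⟩
    unfold lamz
    rw [← rs_mul z (lam_mem hw hf) (lam_mem hw hg), pow_add, pow_add]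
    congr 1
    ring
  lam_ker e n f := by
    rintro ⟨j, hf⟩
    constructor
    · intro h
      exact ⟨j, ker_lam hX hS hw hf h⟩
    · rintro ⟨j', hf'⟩
      exact lam_nun hS (lam_mem hw hf')

section

variable (hS : SPr Y z S) (hW : Effective W) (hw : Un (Y.O z) (W.eq z)) {ι : Type}
  (v : ι → Place F K) (w u : ι → ℤ) (hwp : ∀ i, 0 < w i) (ht : 0 < t) (hθ : ∀ x, Un (Y.O x) (θ * Q.eq x ^ t))
  (hv : ∀ i, (v i).ord θ = -((t : ℤ) * u i))
  (hh : ∀ (e j n m : ℕ) (f : K), f ≠ 0 → f ∈ LL S W Q e m n →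
    (f ∈ LL S W Q e j n ↔ ∀ i, -(j : ℤ) * w i ≤ (v i).ord f + e * u i))

include hh in
theorem pp_L (e j n : ℕ) : (ppOf hX hS hW hw v w u hwp ht hθ hv).L e j n = LL S W Q e j n := by
  ext f
  rw [PP.mem_L]
  constructor
  · rintro ⟨⟨m, hm⟩, h2⟩
    by_cases h0 : f = 0
    · rw [h0]
      exact Submodule.zero_mem _
    · exact (hh e j n m f h0 hm).2 fun i => h2 i h0
  · intro hf
    exact ⟨⟨j, hf⟩, fun i h0 => (hh e j n j f h0 hf).1 hf i⟩

include hh in
theorem pp_sat (hb : ∀ x, z ⤳ x → ∃ u ∈ secL S 1, Un (Y.O x) (u * S.eq x)) (a N n : ℕ) (g : Y.kap z)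
    (hg : ∀ x ∈ ((ppOf hX hS hW hw v w u hwp ht hθ hv).L 0 0 1) ^ N, lamz z S Q 0 N x * g ∈ Gm hX hw S Q 1 a (N + n)) :
    g ∈ Gm hX hw S Q 1 a n := by
  rw [mem_Gm]
  intro x
  obtain ⟨c, hc, hcx⟩ := hb x.1 x.2
  have hc' : c ∈ (ppOf hX hS hW hw v w u hwp ht hθ hv).L 0 0 1 := by
    rw [pp_L hS hW hw v w u hwp ht hθ hv hh, mem_LL]
    intro y
    rw [pow_zero, pow_zero, one_mul, one_mul, pow_one]
    have := hc y
    rwa [pow_one] at this
  have h1 := hg (c ^ N) (Submodule.pow_mem_pow _ hc' N)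
  rw [mem_Gm] at h1
  have h2 := h1 x
  have hSx := quo_un S z x.1 x.2
  have hcz : c * S.eq z ∈ Y.O z := by
    have := hc z
    rwa [pow_one] at this
  have h3 : lamz z S Q 0 N (c ^ N) * (resD hX z S).eq x ^ N = (Y.rs z (c * S.eq x.1)) ^ N := by
    have e1 : lamz z S Q 0 N (c ^ N) = (Y.rs z (c * S.eq z)) ^ N := by
      unfold lamz
      rw [pow_zero, one_mul, ← mul_pow, rs_pow z hcz]
    rw [e1, resD_eq, ← mul_pow, ← rs_mul z hcz hSx.2.1]
    congr 2
    have := S.ne z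
    field_simp
  have h4 : lamz z S Q 0 N (c ^ N) * g * ((resD hX z Q).eq x ^ 1 * ((Ew hX hw).eq x ^ a * (resD hX z S).eq x ^ (N + n))) =
      g * ((resD hX z Q).eq x ^ 1 * ((Ew hX hw).eq x ^ a * (resD hX z S).eq x ^ n)) * (Y.rs z (c * S.eq x.1)) ^ N := by
    rw [← h3, pow_add]
    ring
  rw [h4] at h2
  have h5 : Un ((subM hX z).O x) (Y.rs z (c * S.eq x.1)) := (un_subO hX x.2 hcx.2.1).2 hcx
  exact (mem_mul_un (un_pow h5 N)).1 h2

end

theorem LL_zero (n : ℕ) : LL S W Q 1 0 n = secL (Q * S ^ n) 1 := by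
  unfold LL
  rw [pow_one, pow_zero, one_mul]

/-- an increasing sequence of subspaces of bounded dimension is stationary -/
theorem stat {V : Type} [AddCommGroup V] [Module F V] (A : ℕ → Submodule F V) (hA : Monotone A)
    (hf : ∀ j, FiniteDimensional F (A j)) (c : ℕ) (hc : ∀ j, Module.finrank F (A j) ≤ c) :
    ∃ j₀, ∀ j, A j ≤ A j₀ := by
  classical
  have hb : BddAbove (Set.range fun j => Module.finrank F (A j)) := ⟨c, by rintro _ ⟨j, rfl⟩; exact hc j⟩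
  obtain ⟨j₀, hj₀⟩ := Nat.sSup_mem (Set.range_nonempty fun j => Module.finrank F (A j)) hb
  refine ⟨j₀, fun j => ?_⟩
  have h1 : Module.finrank F (A (max j j₀)) ≤ Module.finrank F (A j₀) := by
    have := le_csSup hb (Set.mem_range_self (f := fun j => Module.finrank F (A j)) (max j j₀))
    rw [← hj₀] at this
    exact this
  have := hf (max j j₀)
  have h2 := Submodule.eq_of_le_of_finrank_le (hA (le_max_right j j₀)) h1
  rw [h2]
  exact hA (le_max_left j j₀)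

/-- the contradiction -/
theorem td_false [CharZero F] (D : TD Y hX z S W Q t θ d) : False := by
  obtain ⟨ι, hι, v, w, u, hwp, hv, hh⟩ := D.har
  have hS := D.spr
  have hW := D.eff
  have hw := D.wz
  have ht := D.tpos
  have hθ := D.tor
  have hL := pp_L (hX := hX) hS hW hw v w u hwp ht hθ hv hh
  have hV := isVar_sub hX z
  have hAS := res_ample hX z S D.amp
  have hgz : ∃ g, Gen (subM hX z) g := ⟨_, gen_sub hX z⟩
  have hC : Crv (subM hX z) := ⟨hV, hgz, ⟨_, hAS⟩, D.tr⟩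
  have hfL : ∀ e j n, FiniteDimensional F (LL S W Q e j n) := fun e j n => fd hX D.gen D.amp _
  have hfG : ∀ e j n, FiniteDimensional F (Gm hX hw S Q e j n) := fun e j n => fd hV hgz hAS _
  have e0 : ∀ e j n, Module.finrank F (Gm hX hw S Q e j n) = h0 (resD hX z (Q ^ e * (W ^ j * S ^ n))) 1 := h0_Gm hw
  refine PP.pp_false (D := ppOf hX hS hW hw v w u hwp ht hθ hv) (d := d) ?_
  refine
    { fL := fun j n => ?_
      fG := fun j n => ?_
      un := ?_
      R := ?_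
      lamG0 := ?_
      lamG := ?_
      mulG := ?_
      sat := fun a N n g hg => pp_sat hS hW hw v w u hwp ht hθ hv hh D.bpf a N n g hg
      H1 := ?_
      Y1 := ?_
      H4 := ?_
      H4' := ?_
      AS := ?_ }
  · rw [hL]
    exact Module.Finite.iff_fg.1 (hfL 1 j n)
  · exact Module.Finite.iff_fg.1 (hfG 1 j n)
  · rintro n f ⟨j, hf⟩
    exact ⟨j, by rw [hL]; exact hf⟩
  · -- rigidity
    obtain ⟨c, hc⟩ := D.rig
    obtain ⟨j₀, hj₀⟩ := stat (fun j => LL S W Q 1 j 0)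
      (fun _ _ h => LL_mono S W Q hS.eff hW h le_rfl) (fun j => hfL 1 j 0) c (fun j => by
        show h0 (Q ^ 1 * (W ^ j * S ^ 0)) 1 ≤ c
        rw [pow_one, pow_zero, mul_one]
        exact hc j)
    have h1 : (ppOf hX hS hW hw v w u hwp ht hθ hv).Ni 1 0 = LL S W Q 1 j₀ 0 := by
      apply le_antisymm
      · rintro f ⟨j, hf⟩
        exact hj₀ j hf
      · intro f hf
        exact ⟨j₀, hf⟩
    rw [h1]
    exact Module.Finite.iff_fg.1 (hfL 1 j₀ 0)
  · intro f hf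
    rw [hL] at hf
    exact lam_Gm hw hf
  · intro j n f hf
    rw [hL] at hf
    exact lam_Gm hw hf
  · intro g g' hg hg'
    have hg := (mem_Gm (hX := hX) hw 0 0 1 g).1 hg
    have hg' := (mem_Gm (hX := hX) hw 1 0 1 g').1 hg'
    refine (mem_Gm (hX := hX) hw 1 0 2 (g * g')).2 fun x => ?_
    have h1 := mul_mem (hg x) (hg' x)
    have h2 : g * ((resD hX z Q).eq x ^ 0 * ((Ew hX hw).eq x ^ 0 * (resD hX z S).eq x ^ 1)) *
        (g' * ((resD hX z Q).eq x ^ 1 * ((Ew hX hw).eq x ^ 0 * (resD hX z S).eq x ^ 1))) =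
        g * g' * ((resD hX z Q).eq x ^ 1 * ((Ew hX hw).eq x ^ 0 * (resD hX z S).eq x ^ 2)) := by ring
    rwa [h2] at h1
  · intro g hg
    have hg := (mem_Gm (hX := hX) hw 1 0 1 g).1 hg
    obtain ⟨j, f, h1, h2⟩ := D.h1 g fun x => by
      have h := hg x
      rw [pow_one, pow_one, pow_zero, one_mul] at h
      rw [map_mul, mul_eq, pow_one]
      exact h
    refine ⟨f, ⟨j, ?_⟩, ?_⟩
    · show f ∈ secL (Q ^ 1 * (W ^ j * S ^ 1)) 1
      rw [pow_one S, pow_one Q]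
      exact h1
    · show Y.rs z (f * (Q.eq z ^ 1 * S.eq z ^ 1)) = g
      rw [pow_one, pow_one]
      rw [mul_eq] at h2
      exact h2
  · -- surjectivity from the dimensions
    intro n hn g hg
    obtain ⟨m, rfl⟩ : ∃ m, n = m + 1 := ⟨n - 1, by omega⟩
    have hL0 : (ppOf hX hS hW hw v w u hwp ht hθ hv).L 1 0 (m + 1) = LL S W Q 1 0 (m + 1) := hL 1 0 (m + 1)
    let φ : LL S W Q 1 0 (m + 1) →ₗ[F] Gm hX hw S Q 1 0 (m + 1) :=
      { toFun := fun f => ⟨lamz z S Q 1 (m + 1) f, lam_Gm hw f.2⟩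
        map_add' := fun f g => Subtype.ext
          ((ppOf hX hS hW hw v w u hwp ht hθ hv).lam_add 1 (m + 1) f g ⟨0, f.2⟩ ⟨0, g.2⟩)
        map_smul' := fun c f => Subtype.ext ((ppOf hX hS hW hw v w u hwp ht hθ hv).lam_smul 1 (m + 1) c f ⟨0, f.2⟩) }
    have hk : LinearMap.ker φ = (LL S W Q 1 0 m).comap (LL S W Q 1 0 (m + 1)).subtype := by
      ext f
      rw [LinearMap.mem_ker, Submodule.mem_comap]
      constructor
      · intro h
        exact ker_lam hX hS hw f.2 (congrArg Subtype.val h)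
      · intro h
        exact Subtype.ext (lam_nun hS (lam_mem hw h))
    have := hfL 1 0 (m + 1)
    have := hfG 1 0 (m + 1)
    have h1 := φ.finrank_range_add_finrank_ker
    have h2 : Module.finrank F ((LL S W Q 1 0 m).comap (LL S W Q 1 0 (m + 1)).subtype) = h0 (Q * S ^ m) 1 := by
      rw [(Submodule.comapSubtypeEquivOfLe (LL_mono S W Q hS.eff hW le_rfl (Nat.le_succ m))).finrank_eq, LL_zero]
      rfl
    have h3 : Module.finrank F (LL S W Q 1 0 (m + 1)) = h0 (Q * S ^ (m + 1)) 1 := by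
      rw [LL_zero]
      rfl
    have h4 := D.y1 (m + 1) hn
    rw [Nat.add_sub_cancel] at h4
    have h5 := e0 1 0 (m + 1)
    rw [pow_one, pow_zero, one_mul] at h5
    rw [hk, h2, h3] at h1
    have h6 : Module.finrank F (Gm hX hw S Q 1 0 (m + 1)) ≤ Module.finrank F (LinearMap.range φ) := by
      rw [h5]
      omega
    have h7 : LinearMap.range φ = ⊤ :=
      Submodule.eq_top_of_finrank_eq (le_antisymm (Submodule.finrank_le _) h6)
    obtain ⟨f, hf⟩ := LinearMap.range_eq_top.1 h7 ⟨g, hg⟩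
    exact ⟨f, by rw [hL0]; exact f.2, congrArg Subtype.val hf⟩
  · -- degrees
    intro j n hn
    show Module.finrank F (Gm hX hw S Q 1 j n) ≤ Module.finrank F (Gm hX hw S Q 1 0 n) + j * d
    have hE : Effective (Ew hX hw) := res_eff hX z W hW hw
    have hdE : dg (Ew hX hw) = (d : ℤ) := by
      unfold Ew
      rw [dg_mul hC, dg_prin hC, add_zero, D.deg]
    have h1 : AdD (resD hX z Q ^ 1 * (Ew hX hw ^ 0 * resD hX z S ^ n)) ≤
        AdD (resD hX z Q ^ 1 * (Ew hX hw ^ j * resD hX z S ^ n)) := by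
      refine ad_mono _ _ fun x => ?_
      have hq := Cart.ne (resD hX z Q) x
      have hs := Cart.ne (resD hX z S) x
      have h2 : (resD hX z Q ^ 1 * (Ew hX hw ^ j * resD hX z S ^ n)).eq x /
          (resD hX z Q ^ 1 * (Ew hX hw ^ 0 * resD hX z S ^ n)).eq x = (Ew hX hw).eq x ^ j := by
        rw [mul_eq, mul_eq, mul_eq, mul_eq, pow_eq, pow_eq, pow_eq, pow_zero, one_eq, one_mul]
        field_simp
      rw [h2]
      exact pow_mem (hE x) j
    have h2 := hh_mono hC _ _ h1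
    have h3 := rr hC (resD hX z Q ^ 1 * (Ew hX hw ^ j * resD hX z S ^ n))
    have h4 := rr hC (resD hX z Q ^ 1 * (Ew hX hw ^ 0 * resD hX z S ^ n))
    have h5 : dg (resD hX z Q ^ 1 * (Ew hX hw ^ j * resD hX z S ^ n)) =
        j * d + dg (resD hX z Q ^ 1 * (Ew hX hw ^ 0 * resD hX z S ^ n)) := by
      rw [dg_mul hC, dg_mul hC, dg_pow hC (Ew hX hw), hdE, dg_mul hC (resD hX z Q ^ 1) (Ew hX hw ^ 0 * resD hX z S ^ n),
        pow_zero, one_mul]
      ring
    have h7 : ((Module.finrank F (Gm hX hw S Q 1 j n) : ℕ) : ℤ) ≤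
        (Module.finrank F (Gm hX hw S Q 1 0 n) : ℕ) + (j * d : ℕ) := by
      show ((h0 (resD hX z Q ^ 1 * (Ew hX hw ^ j * resD hX z S ^ n)) 1 : ℕ) : ℤ) ≤
        (h0 (resD hX z Q ^ 1 * (Ew hX hw ^ 0 * resD hX z S ^ n)) 1 : ℕ) + (j * d : ℕ)
      push_cast
      have h8 : ((Pool.Agent.H41.TK.hh (resD hX z Q ^ 1 * (Ew hX hw ^ j * resD hX z S ^ n)) : ℕ) : ℤ) ≤
          Pool.Agent.H41.TK.hh (resD hX z Q ^ 1 * (Ew hX hw ^ 0 * resD hX z S ^ n)) := by
        exact_mod_cast h2.1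
      linarith
    exact_mod_cast h7
  · obtain ⟨j₁, hj⟩ := D.drop
    refine ⟨j₁, fun j h => ?_⟩
    have h1 := hj j h
    show Module.finrank F (Gm hX hw S Q 1 j 1) + 1 ≤ Module.finrank F (Gm hX hw S Q 1 0 1) + j * d
    rw [e0, e0, pow_one, pow_one, pow_zero, one_mul]
    exact h1
  · intro j
    obtain ⟨m₀, hm⟩ := D.as j
    refine ⟨m₀, fun m h => ?_⟩
    rw [hL, hL]
    have h1 := hm m h
    have h2 : Module.finrank F (LL S W Q 1 0 m) = h0 (Q * S ^ m) 1 := by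
      rw [LL_zero]
      rfl
    have h3 : Module.finrank F (LL S W Q 1 j m) = h0 (Q * (W ^ j * S ^ m)) 1 := by
      unfold LL
      rw [pow_one]
      rfl
    rw [h2, h3]
    exact h1

end Pool.Agent.H60.AP
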